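import Pool.Agent.Y285.HR.Gen
import Pool.Agent.Y285.HR.Num

set_option autoImplicit false

/-!
Heat kernels of a critical and a subcritical operator on the real line: the ratio can grow along a
sequence of times faster than any prescribed function `h` with `h(t) = o(t / log t)`.
Here `d = 1`, `Ω = ℝ` and `H = -(A u')' + V u`.
-/

open MeasureTheory Filter Topology
open scoped ContDiff ComplexConjugate

namespace Pool.Agent.Results.MP_ca5fa5_an.NearlyLinearGrowth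

noncomputable section

open Pool.Agent.Helper406.HK Pool.Agent.Y285.HR

variable {h : ℝ → ℝ} {x t : ℕ → ℝ}

theorem k0_tendsto (s : Sc h x t) : Tendsto (k0 s).S atTop atTop := by
  have h1 : Tendsto (fun n : ℕ => (k0 s).S (x n + 1)) atTop atTop := by
    have h2 : Tendsto (fun n : ℕ => (n : ℝ)) atTop atTop := tendsto_natCast_atTop_atTop
    apply tendsto_atTop_mono _ h2
    intro n
    rw [k0_S s n le_rfl (s.x_gap1 n)]
    have : 0 ≤ gd (x n + 1) := gd_nonneg (by linarith [s.x_nonneg n])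
    linarith
  rw [tendsto_atTop]
  intro b
  obtain ⟨n, hn⟩ := (h1.eventually (eventually_ge_atTop b)).exists
  filter_upwards [eventually_ge_atTop (x n + 1)] with r hr
  exact hn.trans ((k0 s).S_strictMono.monotone hr)

theorem k0_inf (s : Sc h x t) : InfSpec (k0 s).a (fun _ => 0) 0 := by
  apply infSpec_zero
  intro δ hδ
  obtain ⟨Y, hY1, hY2⟩ : ∃ Y, 1 < Y ∧ 2 / δ < (k0 s).S Y - (k0 s).S 1 := by
    have h1 := (k0_tendsto s).eventually (eventually_gt_atTop (2 / δ + (k0 s).S 1))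
    obtain ⟨Y, h2, h3⟩ := (h1.and (eventually_gt_atTop 1)).exists
    exact ⟨Y, h3, by linarith⟩
  apply inf_zero_of (k0 s) (k0_odd s) one_pos hY1 (by positivity) hY2
  rw [mul_one, one_div_div]
  linarith

theorem k1_inf (s : Sc h x t) : InfSpec (k1 s).a (fun _ => 0) 0 := by
  apply infSpec_zero
  intro δ hδ
  obtain ⟨n, hn⟩ : ∃ n : ℕ, 2 / δ < (2 : ℝ) ^ n :=
    pow_unbounded_of_one_lt _ (by norm_num)
  have ht2 := s.t_two n
  have hty := s.t_le_y n
  have hS : (1 / 2 : ℝ) ^ n ≤ (k1 s).S (yy t n + 1) - (k1 s).S (yy t n) := by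
    rw [k1_S_X, k1_S_Y, Finset.sum_range_succ]
    have : gd (yy t n) ≤ gd (yy t n + 1) := gd_mono (by linarith)
    linarith
  have hq0 : (0 : ℝ) < (1 / 2) ^ n := by positivity
  have h1 : (2 : ℝ) ^ n ≤ yy t n * (1 / 2) ^ n := by
    unfold yy
    have e : (4 : ℝ) ^ n = 2 ^ n * 2 ^ n := by rw [← mul_pow]; norm_num
    have e2 : (2 : ℝ) ^ n * (1 / 2) ^ n = 1 := by rw [← mul_pow]; norm_num
    have h2 : (0 : ℝ) < 2 ^ n := by positivity
    calc (2 : ℝ) ^ n = 2 ^ n * 1 * 1 := by ring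
      _ ≤ 2 ^ n * 1 * (576 * t n) := by gcongr; linarith
      _ = 2 ^ n * ((2 : ℝ) ^ n * (1 / 2) ^ n) * (576 * t n) := by rw [e2]
      _ = 576 * 4 ^ n * t n * (1 / 2) ^ n := by rw [e]; ring
  apply inf_zero_of (k1 s) (k1_odd s) (X := yy t n) (Y := yy t n + 1) (s := (1 / 2 : ℝ) ^ n / 2)
    (by linarith) (by linarith) (by positivity) (by linarith)
  have hy0 : 0 < yy t n := by linarith
  rw [div_lt_iff₀ (by positivity)]
  rw [div_lt_iff₀ hδ] at hn
  nlinarith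

/-- For every `h : ℝ → ℝ` with `h(t) log t / t → 0` as `t → ∞` there are smooth positive
coefficients `A₀`, `A₁` on the line such that `H₀ = -(A₀ u')'` is critical and `H₁ = -(A₁ u')'` is
subcritical, both with spectrum starting at `0`, whose heat kernels `p₀`, `p₁` exist (and are
unique), and a sequence of times `τ n → ∞` with
`p₁ / p₀ ≥ (n + 1) (1 + |h (τ n)|)` at the origin and time `τ n`; in particular `p₁ / p₀` does not
tend to `0` locally uniformly and beats `h` along a sequence of times. -/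
theorem result : ∀ h : ℝ → ℝ, Tendsto (fun t => h t * Real.log t / t) atTop (𝓝 0) →
    ∃ A₀ A₁ : ℝ → ℝ, ∃ τ : ℕ → ℝ,
    (ContDiff ℝ ∞ A₀ ∧ ∀ x, 0 < A₀ x) ∧ (ContDiff ℝ ∞ A₁ ∧ ∀ x, 0 < A₁ x) ∧
    InfSpec A₀ (fun _ => 0) 0 ∧ InfSpec A₁ (fun _ => 0) 0 ∧
    Critical A₀ (fun _ => 0) ∧ Subcritical A₁ (fun _ => 0) ∧
    (∃ p₀, IsHeatKernel A₀ (fun _ => 0) p₀) ∧ (∃ p₁, IsHeatKernel A₁ (fun _ => 0) p₁) ∧
    Tendsto τ atTop atTop ∧
    ∀ p₀ p₁ : ℝ → ℝ → ℝ → ℝ,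
      IsHeatKernel A₀ (fun _ => 0) p₀ → IsHeatKernel A₁ (fun _ => 0) p₁ →
      (∀ t, 0 < t → 0 < p₀ t 0 0 ∧ 0 < p₁ t 0 0) ∧
      ¬ TendstoLocallyUniformly
        (fun (t : ℝ) (z : ℝ × ℝ) => p₁ t z.1 z.2 / p₀ t z.1 z.2) (fun _ => 0) atTop ∧
      (∀ n : ℕ, ((n : ℝ) + 1) * (1 + |h (τ n)|) ≤ p₁ (τ n) 0 0 / p₀ (τ n) 0 0) ∧
      Tendsto (fun n => p₁ (τ n) 0 0 / p₀ (τ n) 0 0) atTop atTop := by
  intro h hh
  obtain ⟨x, t, s⟩ := exists_sc hh
  have htau : Tendsto t atTop atTop := by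
    apply tendsto_atTop_mono _ (tendsto_natCast_atTop_atTop (R := ℝ))
    intro n
    linarith [s.t_ge n, s.nat_le_x n]
  refine ⟨(k0 s).a, (k1 s).a, t, ⟨(k0 s).a_smooth, (k0 s).a_pos⟩, ⟨(k1 s).a_smooth, (k1 s).a_pos⟩,
    k0_inf s, k1_inf s, isCritical (k0 s) (k0_odd s) (k0_tendsto s),
    isSubcritical (k1 s) (C := 4) (by norm_num) (k1_bdd s),
    ⟨_, isHeatKernel_pR (k0 s)⟩, ⟨_, isHeatKernel_pR (k1 s)⟩, htau, ?_⟩
  intro p₀ p₁ h0 h1
  have e0 : ∀ t, 0 < t → p₀ t 0 0 = pd (k0 s) t := fun t ht => by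
    rw [heatKernel_eq (k0 s) h0 ht, pR_diag]
  have e1 : ∀ t, 0 < t → p₁ t 0 0 = pd (k1 s) t := fun t ht => by
    rw [heatKernel_eq (k1 s) h1 ht, pR_diag]
  have hbig : ∀ n : ℕ, ((n : ℝ) + 1) * (1 + |h (t n)|) ≤ p₁ (t n) 0 0 / p₀ (t n) 0 0 := by
    intro n
    have ht : 0 < t n := by linarith [s.t_two n]
    rw [e0 _ ht, e1 _ ht]
    exact ratio_big s n
  have key : Tendsto (fun n => p₁ (t n) 0 0 / p₀ (t n) 0 0) atTop atTop := by
    apply tendsto_atTop_mono _ (tendsto_natCast_atTop_atTop (R := ℝ))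
    intro n
    refine le_trans ?_ (hbig n)
    have h2 : 0 ≤ |h (t n)| := abs_nonneg _
    have h3 : (0 : ℝ) ≤ n := Nat.cast_nonneg n
    nlinarith
  refine ⟨fun t ht => ?_, ?_, hbig, key⟩
  · rw [e0 t ht, e1 t ht]
    exact ⟨pd_pos (k0 s) ht, pd_pos (k1 s) ht⟩
  · intro hcon
    have h2 : Tendsto (fun t : ℝ => p₁ t 0 0 / p₀ t 0 0) atTop (𝓝 0) := by
      rw [Metric.tendsto_nhds]
      intro ε hε
      obtain ⟨s, hs, h3⟩ := hcon {p | dist p.1 p.2 < ε} (Metric.dist_mem_uniformity hε) (0, 0)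
      filter_upwards [h3] with t ht
      have h4 := ht (0, 0) (mem_of_mem_nhds hs)
      rw [dist_comm]
      exact h4
    exact not_tendsto_nhds_of_tendsto_atTop key 0 (h2.comp htau)

end

end Pool.Agent.Results.MP_ca5fa5_an.NearlyLinearGrowth
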